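import Mathlib
import Pool.Agent.Helper358.BM8

/-!
# The isomorphism class of a nonseparable WCG Banach space has infinite Banach-Mazur diameter
-/

set_option autoImplicit false

namespace Pool.Agent.Results.MP_11e589_an.InfiniteDiameter

open scoped ENNReal NNReal

universe u

/-- The Banach-Mazur distance `d(Y, Z) = inf ‖T‖ ‖T⁻¹‖`, over all linear isomorphisms `T` of `Y`
onto `Z`, as an element of `[0, ∞]`. -/
noncomputable def bmDist (Y Z : Type u) [NormedAddCommGroup Y] [NormedSpace ℝ Y]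
    [NormedAddCommGroup Z] [NormedSpace ℝ Z] : ℝ≥0∞ :=
  ⨅ T : Y ≃L[ℝ] Z, ENNReal.ofReal (‖(T : Y →L[ℝ] Z)‖ * ‖(T.symm : Z →L[ℝ] Y)‖)

/-- `D(X) = sup d(Y, Z)`, over all Banach spaces `Y` and `Z` isomorphic to `X`, as an element of
`[0, ∞]`. -/
noncomputable def bmDiam (X : Type u) [NormedAddCommGroup X] [NormedSpace ℝ X] : ℝ≥0∞ :=
  ⨆ (Y : Type u) (_ : NormedAddCommGroup Y) (_ : NormedSpace ℝ Y) (_ : CompleteSpace Y)
    (Z : Type u) (_ : NormedAddCommGroup Z) (_ : NormedSpace ℝ Z) (_ : CompleteSpace Z)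
    (_ : Nonempty (X ≃L[ℝ] Y)) (_ : Nonempty (X ≃L[ℝ] Z)), bmDist Y Z

/-- `X` is weakly compactly generated: it contains a weakly compact subset whose closed linear span
is all of `X`. -/
def IsWCG (X : Type u) [NormedAddCommGroup X] [NormedSpace ℝ X] : Prop :=
  ∃ K : Set X, IsCompact ((toWeakSpace ℝ X) '' K) ∧
    (Submodule.span ℝ K).topologicalClosure = ⊤

/-- **Theorem.** For every nonseparable weakly compactly generated real Banach space `X` one has
`D(X) = ∞`. -/
theorem result (X : Type u) [NormedAddCommGroup X] [NormedSpace ℝ X] [CompleteSpace X]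
    (hns : ¬ TopologicalSpace.SeparableSpace X) (hwcg : IsWCG X) : bmDiam X = ∞ := by
  obtain ⟨K, hK, hspan⟩ := hwcg
  apply ENNReal.eq_top_of_forall_nnreal_le
  intro M
  obtain ⟨Y, Z, i1, i2, i3, i4, i5, i6, hY, hZ, h⟩ :=
    Pool.Agent.Helper358.BM.far hK (Submodule.dense_iff_topologicalClosure_eq_top.mpr hspan) hns M
  have h1 : (M : ℝ≥0∞) ≤ bmDist Y Z := by
    apply le_iInf
    intro T
    rw [← ENNReal.ofReal_coe_nnreal]
    exact ENNReal.ofReal_le_ofReal (h T)
  refine h1.trans ?_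
  unfold bmDiam
  exact le_iSup_of_le Y <| le_iSup_of_le i1 <| le_iSup_of_le i2 <| le_iSup_of_le i3 <|
    le_iSup_of_le Z <| le_iSup_of_le i4 <| le_iSup_of_le i5 <| le_iSup_of_le i6 <|
    le_iSup_of_le hY <| le_iSup_of_le hZ le_rfl

end Pool.Agent.Results.MP_11e589_an.InfiniteDiameter
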